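import Pool.Agent.Q275.GQ.Stm2

/-!
# The lattice points of an expansion (job SEQ of the project GQ, helper58)
-/

set_option autoImplicit false

namespace Pool.Agent.Q58.GQ

open Finset Filter Topology MeasureTheory
open Pool.Agent.Q275.GQ

theorem val_sub (P : Par) (m n : ℤ × ℤ) : val P (m - n) = val P m - val P n := by
  simp only [Q275.GQ.val, Prod.fst_sub, Prod.snd_sub]; push_cast; ring

theorem z_eq (P : Par) (z : ℂ) : z = (c0 P z : ℂ) * P.a2 + (c1 P z : ℂ) * (P.a2 * P.α + P.a1) := by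
  have h2 : (P.a2 : ℝ) ≠ 0 := P.a2_pos.ne'
  have h3 := P.nr
  apply Complex.ext
  · have h4 : c0 P z * P.a2 = z.re - c1 P z * (P.a2 * P.α.re + P.a1) := by
      unfold c0; field_simp
    simp
    linarith
  · have h4 : c1 P z * (P.a2 * P.α.im) = z.im := by
      unfold c1; field_simp
    simp
    linarith

theorem z_near (P : Par) (z : ℂ) :
    ‖z - val P (M0 P z)‖ ≤ P.a2 + ‖(P.a2 * P.α + P.a1 : ℂ)‖ := by
  have h1 : z - val P (M0 P z) = ((Int.fract (c0 P z) : ℝ) : ℂ) * P.a2 +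
      ((Int.fract (c1 P z) : ℝ) : ℂ) * (P.a2 * P.α + P.a1) := by
    conv_lhs => rw [z_eq P z]
    have e0 : (c0 P ((c0 P z : ℂ) * P.a2 + (c1 P z : ℂ) * (P.a2 * P.α + P.a1))) = c0 P z := by
      rw [← z_eq P z]
    have e1 : (c1 P ((c0 P z : ℂ) * P.a2 + (c1 P z : ℂ) * (P.a2 * P.α + P.a1))) = c1 P z := by
      rw [← z_eq P z]
    simp only [Q275.GQ.val, M0, e0, e1]
    have f0 : ((⌊c0 P z⌋ : ℤ) : ℂ) = (c0 P z : ℂ) - ((Int.fract (c0 P z) : ℝ) : ℂ) := by
      have := Int.self_sub_fract (c0 P z)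
      rw [← Complex.ofReal_sub, this]; norm_cast
    have f1 : ((⌊c1 P z⌋ : ℤ) : ℂ) = (c1 P z : ℂ) - ((Int.fract (c1 P z) : ℝ) : ℂ) := by
      have := Int.self_sub_fract (c1 P z)
      rw [← Complex.ofReal_sub, this]; norm_cast
    rw [f0, f1]; ring
  rw [h1]
  refine (norm_add_le _ _).trans (add_le_add ?_ ?_)
  · rw [norm_mul, Complex.norm_real, Real.norm_of_nonneg (Int.fract_nonneg _)]
    have h2 : ‖(P.a2 : ℂ)‖ = P.a2 := by
      rw [← Complex.ofReal_intCast, Complex.norm_real, Real.norm_of_nonneg P.a2_pos.le]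
    rw [h2]
    have := (Int.fract_lt_one (c0 P z)).le
    nlinarith [P.a2_pos]
  · rw [norm_mul, Complex.norm_real, Real.norm_of_nonneg (Int.fract_nonneg _)]
    exact mul_le_of_le_one_left (norm_nonneg _) (Int.fract_lt_one _).le

theorem fin_val (P : Par) (R : ℝ) : ∃ V : Finset (ℤ × ℤ), ∀ v : ℤ × ℤ, ‖val P v‖ ≤ R → v ∈ V := by
  set B2 : ℝ := R / (P.a2 * |P.α.im|) with hB2
  set B1 : ℝ := (R + B2 * ‖(P.a2 * P.α + P.a1 : ℂ)‖) / P.a2 with hB1
  have ha := P.a2_pos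
  have hb : 0 < |P.α.im| := abs_pos.2 P.nr
  refine ⟨Icc (-⌈B1⌉) ⌈B1⌉ ×ˢ Icc (-⌈B2⌉) ⌈B2⌉, fun v hv => ?_⟩
  have h1 : (val P v).im = v.2 * (P.a2 * P.α.im) := by simp [Q275.GQ.val]
  have h2 : |(v.2 : ℝ)| ≤ B2 := by
    rw [hB2, le_div_iff₀ (by positivity)]
    calc |(v.2 : ℝ)| * (P.a2 * |P.α.im|) = |(val P v).im| := by
          rw [h1, abs_mul, abs_mul, abs_of_pos ha]
      _ ≤ ‖val P v‖ := Complex.abs_im_le_norm _
      _ ≤ R := hv
  have h3 : |(v.1 : ℝ)| ≤ B1 := by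
    rw [hB1, le_div_iff₀ ha]
    have e1 : (v.1 : ℂ) * P.a2 = val P v - v.2 * (P.a2 * P.α + P.a1) := by
      simp only [Q275.GQ.val]; ring
    have e2 : ‖(v.1 : ℂ) * P.a2‖ = |(v.1 : ℝ)| * P.a2 := by
      rw [norm_mul, ← Complex.ofReal_intCast, ← Complex.ofReal_intCast, Complex.norm_real,
        Complex.norm_real, Real.norm_eq_abs, Real.norm_of_nonneg ha.le]
    rw [← e2, e1]
    refine (norm_sub_le _ _).trans (add_le_add hv ?_)
    rw [norm_mul, ← Complex.ofReal_intCast, Complex.norm_real, Real.norm_eq_abs]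
    exact mul_le_mul_of_nonneg_right h2 (norm_nonneg _)
  have g : ∀ (m : ℤ) (B : ℝ), |(m : ℝ)| ≤ B → m ∈ Icc (-⌈B⌉) ⌈B⌉ := by
    intro m B h
    obtain ⟨h5, h6⟩ := abs_le.1 (h.trans (Int.le_ceil B))
    rw [Finset.mem_Icc]
    constructor
    · exact_mod_cast h5
    · exact_mod_cast h6
  exact Finset.mem_product.2 ⟨g _ _ h3, g _ _ h2⟩

theorem seq : S_SEQ := by
  intro P x k c hc
  have hα := P.α_ne
  have hgt := P.gt
  choose ν hν using hc.mem
  have hstep : ∀ n, val P (ν (n + 1)) = ((c (n + 1) : ℤ) : ℂ) + P.α * val P (ν n) := by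
    intro n
    rw [← hν, ← hν, sum_range_succ, Nat.sub_self, pow_zero, mul_one, mul_sum, add_comm]
    congr 1
    refine sum_congr rfl fun i hi => ?_
    have hi' : i ≤ n := by have := mem_range.1 hi; omega
    rw [Nat.succ_sub hi', pow_succ]; ring
  have hu : ∀ n, dig P (ν (n + 1)) = c (n + 1) ∧ A P (ν (n + 1)) = ν n := fun n =>
    unique P (by positivity) (hc.dig_lt _) (hstep n)
  have h0 : dig P (ν 0) = c 0 := by
    refine (unique P (n := (0, 0)) (by positivity) (hc.dig_lt 0) ?_).1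
    rw [← hν]
    simp [Q275.GQ.val]
  set ρ : ℝ := ‖P.α‖ with hρ
  have hρ0 : 0 < ρ := by linarith
  have hq0 : (0 : ℝ) ≤ 1 / ρ := by positivity
  have hq1 : 1 / ρ < 1 := by rw [div_lt_one hρ0]; exact hgt
  set R1 : ℝ := (P.a0 : ℝ) * (1 / ρ) * (1 - 1 / ρ)⁻¹ with hR1
  obtain ⟨V, hV⟩ := fin_val P (R1 + (P.a2 + ‖(P.a2 * P.α + P.a1 : ℂ)‖))
  refine ⟨ν, V, fun n => (hu n).2, ?_, ?_⟩
  · intro n
    cases n with
    | zero => exact h0
    | succ n => exact (hu n).1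
  · intro n
    apply hV
    set z : ℂ := P.α ^ n * (P.α ^ (-k) * x) with hz
    have hs : HasSum (fun i : ℕ => (c i : ℂ) * P.α ^ ((n : ℤ) - i)) z := by
      have h1 := (hc.sum.mul_left (P.α ^ n * P.α ^ (-k)))
      have h2 : (fun i : ℕ => (c i : ℂ) * P.α ^ ((n : ℤ) - i)) =
          fun i : ℕ => P.α ^ n * P.α ^ (-k) * ((c i : ℂ) * P.α ^ (k - i)) := by
        funext i
        have h5 : P.α ^ ((n : ℤ) - i) = P.α ^ n * P.α ^ (-k) * P.α ^ (k - i) := by
          rw [← zpow_natCast, ← zpow_add₀ hα, ← zpow_add₀ hα]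
          congr 1; ring
        rw [h5]; ring
      rw [h2, hz, ← mul_assoc]
      exact h1
    have hs2 := (hasSum_nat_add_iff' (n + 1)).2 hs
    have e1 : ∑ i ∈ range (n + 1), (c i : ℂ) * P.α ^ ((n : ℤ) - i) = val P (ν n) := by
      rw [← hν]
      refine sum_congr rfl fun i hi => ?_
      have hi' : i ≤ n := by have := mem_range.1 hi; omega
      rw [← zpow_natCast, Nat.cast_sub hi']
    rw [e1] at hs2
    have hg : HasSum (fun j : ℕ => (P.a0 : ℝ) * (1 / ρ) * (1 / ρ) ^ j) R1 :=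
      (hasSum_geometric_of_lt_one hq0 hq1).mul_left _
    have h3 : ‖z - val P (ν n)‖ ≤ R1 := by
      refine hs2.norm_le_of_bounded hg fun j => ?_
      rw [norm_mul, norm_zpow, Complex.norm_natCast]
      have e2 : ((n : ℤ) - ((j + (n + 1) : ℕ) : ℤ)) = -((j + 1 : ℕ) : ℤ) := by push_cast; ring
      rw [e2, zpow_neg, zpow_natCast, ← hρ]
      have h4 : ((c (j + (n + 1)) : ℕ) : ℝ) ≤ P.a0 := by
        exact_mod_cast (hc.dig_lt (j + (n + 1))).le
      calc ((c (j + (n + 1)) : ℕ) : ℝ) * (ρ ^ (j + 1))⁻¹ ≤ P.a0 * (ρ ^ (j + 1))⁻¹ := by gcongr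
        _ = P.a0 * (1 / ρ) * (1 / ρ) ^ j := by
          rw [pow_succ, one_div, inv_pow, mul_inv]; ring
    rw [val_sub]
    have e3 : val P (ν n) - val P (M0 P z) = -(z - val P (ν n)) + (z - val P (M0 P z)) := by ring
    rw [e3]
    refine (norm_add_le _ _).trans (add_le_add ?_ (z_near P z))
    rw [norm_neg]; exact h3

end Pool.Agent.Q58.GQ
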