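import Pool.Agent.Q275.GQ.Stm

/-!
# Almost everywhere Weyl theorem for `α^i x` (job WEYL of the project GQ, helper58)
-/

set_option autoImplicit false

namespace Pool.Agent.Q58.GQ

open Finset Filter Topology MeasureTheory
open Pool.Agent.Q275.GQ (e S_WEYL)

theorem e_add (x y : ℝ) : e (x + y) = e x * e y := by
  unfold e; rw [← Complex.exp_add]; congr 1; push_cast; ring

theorem e_conj (x : ℝ) : (starRingEnd ℂ) (e x) = e (-x) := by
  unfold e; rw [← Complex.exp_conj]; congr 1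
  rw [map_mul, map_mul, map_mul, Complex.conj_I, Complex.conj_ofReal, Complex.conj_ofReal,
    Complex.conj_ofNat]
  push_cast; ring

theorem e_norm (x : ℝ) : ‖e x‖ = 1 := by
  unfold e
  rw [show (2 * Real.pi * Complex.I * x : ℂ) = ((2 * Real.pi * x : ℝ) : ℂ) * Complex.I by
    push_cast; ring, Complex.norm_exp_ofReal_mul_I]

theorem e_cont : Continuous e := by
  unfold e; fun_prop

/-- the square -/
def Bx (R : ℝ) : Set ℂ :=
  Complex.measurableEquivRealProd ⁻¹' (Set.Icc (-R) R ×ˢ Set.Icc (-R) R)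

theorem meas_Bx (R : ℝ) : MeasurableSet (Bx R) :=
  Complex.measurableEquivRealProd.measurable (measurableSet_Icc.prod measurableSet_Icc)

theorem mem_Bx {R : ℝ} {x : ℂ} (h : ‖x‖ ≤ R) : x ∈ Bx R := by
  have h1 := (abs_le.1 ((Complex.abs_re_le_norm x).trans h))
  have h2 := (abs_le.1 ((Complex.abs_im_le_norm x).trans h))
  exact ⟨⟨h1.1, h1.2⟩, ⟨h2.1, h2.2⟩⟩

theorem vol_ne_top (R : ℝ) : volume (Bx R) ≠ ⊤ := by
  unfold Bx
  rw [Complex.volume_preserving_equiv_real_prod.measure_preimage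
    (measurableSet_Icc.prod measurableSet_Icc).nullMeasurableSet, Measure.volume_eq_prod,
    Measure.prod_prod, Real.volume_Icc]
  exact ENNReal.mul_ne_top ENNReal.ofReal_ne_top ENNReal.ofReal_ne_top

theorem one_dim (R a : ℝ) (hR : 0 ≤ R) :
    ‖∫ s in Set.Icc (-R) R, e (a * s)‖ ≤ 2 * R ∧
      (a ≠ 0 → ‖∫ s in Set.Icc (-R) R, e (a * s)‖ ≤ 1 / |a|) := by
  constructor
  · have h := norm_setIntegral_le_of_norm_le_const (μ := volume) (s := Set.Icc (-R) R)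
      (f := fun s => e (a * s)) (C := 1) (by simp [Real.volume_Icc]) (fun x _ => (e_norm _).le)
    refine h.trans ?_
    rw [one_mul, Measure.real, Real.volume_Icc, ENNReal.toReal_ofReal (by linarith)]
    linarith
  · intro ha
    rw [integral_Icc_eq_integral_Ioc, ← intervalIntegral.integral_of_le (by linarith)]
    have hc : (2 * Real.pi * Complex.I * a : ℂ) ≠ 0 := by
      simp [ha, Real.pi_ne_zero]
    have e1 : ∀ s : ℝ, e (a * s) = Complex.exp ((2 * Real.pi * Complex.I * a) * s) := by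
      intro s; unfold e; congr 1; push_cast; ring
    simp_rw [e1]
    rw [integral_exp_mul_complex hc, norm_div]
    have h2 : ∀ s : ℝ, ‖Complex.exp ((2 * Real.pi * Complex.I * a) * s)‖ = 1 := by
      intro s; rw [← e1, e_norm]
    have h3 : ‖(2 * Real.pi * Complex.I * a : ℂ)‖ = 2 * Real.pi * |a| := by
      simp [abs_of_pos Real.pi_pos]
    rw [h3]
    have hap : 0 < |a| := abs_pos.2 ha
    rw [div_le_div_iff₀ (by positivity) hap, one_mul]
    have h4 : ‖Complex.exp ((2 * Real.pi * Complex.I * a) * (R : ℝ)) -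
        Complex.exp ((2 * Real.pi * Complex.I * a) * ((-R : ℝ) : ℂ))‖ ≤ 2 := by
      refine (norm_sub_le _ _).trans ?_
      rw [h2, h2]; norm_num
    have h5 : (3 : ℝ) < Real.pi := Real.pi_gt_three
    nlinarith

/-- the Fourier integral over the square -/
noncomputable def II (R : ℝ) (κ : ℂ) : ℂ := ∫ x in Bx R, e ((κ * x).re)

theorem II_eq (R : ℝ) (κ : ℂ) : II R κ =
    (∫ s in Set.Icc (-R) R, e (κ.re * s)) * ∫ t in Set.Icc (-R) R, e (-κ.im * t) := by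
  unfold II Bx
  rw [← setIntegral_prod_mul, ← Measure.volume_eq_prod,
    ← Complex.volume_preserving_equiv_real_prod.setIntegral_preimage_emb
      Complex.measurableEquivRealProd.measurableEmbedding]
  refine setIntegral_congr_fun (meas_Bx R) fun x _ => ?_
  change e ((κ * x).re) = e (κ.re * x.re) * e (-κ.im * x.im)
  rw [← e_add, Complex.mul_re]
  congr 1; ring

theorem II_le (R : ℝ) (hR : 0 ≤ R) (κ : ℂ) (hκ : κ ≠ 0) : ‖II R κ‖ ≤ 4 * R / ‖κ‖ := by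
  rw [II_eq, norm_mul]
  obtain ⟨a1, a2⟩ := one_dim R κ.re hR
  obtain ⟨b1, b2⟩ := one_dim R (-κ.im) hR
  have hk : 0 < ‖κ‖ := norm_pos_iff.2 hκ
  have hn : ‖κ‖ ≤ |κ.re| + |κ.im| := Complex.norm_le_abs_re_add_abs_im κ
  have key : ∀ a : ℝ, ‖κ‖ / 2 ≤ |a| → 2 * R * (1 / |a|) ≤ 4 * R / ‖κ‖ := by
    intro a ha
    have ha0 : 0 < |a| := lt_of_lt_of_le (by positivity) ha
    rw [mul_one_div, div_le_div_iff₀ ha0 hk]
    nlinarith
  by_cases h : ‖κ‖ / 2 ≤ |κ.re|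
  · have hne : κ.re ≠ 0 := by
      intro h0; rw [h0, abs_zero] at h; linarith
    calc _ ≤ (1 / |κ.re|) * (2 * R) := mul_le_mul (a2 hne) b1 (norm_nonneg _) (by positivity)
      _ = 2 * R * (1 / |κ.re|) := by ring
      _ ≤ _ := key _ h
  · have h' : ‖κ‖ / 2 ≤ |-κ.im| := by
      rw [abs_neg]; push Not at h; linarith
    have hne : -κ.im ≠ 0 := by
      intro h0; rw [h0, abs_zero] at h'; linarith
    calc _ ≤ (2 * R) * (1 / |-κ.im|) := mul_le_mul a1 (b2 hne) (norm_nonneg _) (by positivity)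
      _ ≤ _ := key _ h'

theorem II_le' (R : ℝ) (hR : 0 ≤ R) (κ : ℂ) : ‖II R κ‖ ≤ (2 * R) * (2 * R) := by
  rw [II_eq, norm_mul]
  exact mul_le_mul (one_dim R κ.re hR).1 (one_dim R (-κ.im) hR).1 (norm_nonneg _) (by positivity)

/-- the exponential sum -/
noncomputable def SS (α w : ℂ) (N : ℕ) (x : ℂ) : ℂ := ∑ i ∈ range N, e ((w * α ^ i * x).re)

theorem SS_cont (α w : ℂ) (N : ℕ) : Continuous (SS α w N) := by
  unfold SS
  refine continuous_finsetSum _ fun i _ => e_cont.comp ?_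
  exact Complex.continuous_re.comp (by fun_prop)

theorem SS_norm_le (α w : ℂ) (N : ℕ) (x : ℂ) : ‖SS α w N x‖ ≤ N := by
  unfold SS
  refine (norm_sum_le _ _).trans ?_
  simp [e_norm]

theorem SS_sq (α w : ℂ) (N : ℕ) (x : ℂ) : ((‖SS α w N x‖ ^ 2 : ℝ) : ℂ) =
    ∑ i ∈ range N, ∑ j ∈ range N, e ((w * (α ^ i - α ^ j) * x).re) := by
  have h1 : ((‖SS α w N x‖ ^ 2 : ℝ) : ℂ) = SS α w N x * (starRingEnd ℂ) (SS α w N x) := by
    rw [Complex.mul_conj, Complex.normSq_eq_norm_sq]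
  rw [h1]
  unfold SS
  rw [map_sum, sum_mul_sum]
  refine sum_congr rfl fun i _ => sum_congr rfl fun j _ => ?_
  rw [e_conj, ← e_add, ← sub_eq_add_neg, ← Complex.sub_re]
  congr 2; ring

theorem int_e (R : ℝ) (κ : ℂ) : IntegrableOn (fun x : ℂ => e ((κ * x).re)) (Bx R) := by
  refine Measure.integrableOn_of_bounded (M := 1) ?_ ?_ ?_
  · exact vol_ne_top R
  · exact (e_cont.comp (Complex.continuous_re.comp (by fun_prop))).aestronglyMeasurable
  · exact Eventually.of_forall fun x => (e_norm _).le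

theorem key_sum (α : ℂ) (hα : 1 < ‖α‖) (i j : ℕ) (hij : i ≠ j) :
    1 / ‖α ^ i - α ^ j‖ ≤ ‖α‖ / (‖α‖ - 1) * (1 / ‖α‖) ^ i := by
  have h0 : (0 : ℝ) < ‖α‖ - 1 := by linarith
  have hp : 0 < ‖α‖ := by linarith
  -- reduction to j < i
  have main : ∀ p q : ℕ, q < p → ‖α‖ ^ p * (‖α‖ - 1) / ‖α‖ ≤ ‖α ^ p - α ^ q‖ := by
    intro p q hqp
    have h1 : ‖α‖ ^ p - ‖α‖ ^ q ≤ ‖α ^ p - α ^ q‖ := by
      have := norm_sub_norm_le (α ^ p) (α ^ q)
      rwa [norm_pow, norm_pow] at this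
    have h2 : ‖α‖ ^ q ≤ ‖α‖ ^ p / ‖α‖ := by
      rw [le_div_iff₀ hp, ← pow_succ]
      exact pow_le_pow_right₀ hα.le hqp
    have h3 : ‖α‖ ^ p * (‖α‖ - 1) / ‖α‖ = ‖α‖ ^ p - ‖α‖ ^ p / ‖α‖ := by
      field_simp
    linarith
  have h4 : ‖α‖ ^ i * (‖α‖ - 1) / ‖α‖ ≤ ‖α ^ i - α ^ j‖ := by
    rcases lt_or_gt_of_ne hij with h | h
    · have h5 := main j i h
      rw [norm_sub_rev] at h5
      refine le_trans ?_ h5
      gcongr
      exact hα.le
    · exact main i j h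
  have h6 : 0 < ‖α‖ ^ i * (‖α‖ - 1) / ‖α‖ := by positivity
  calc 1 / ‖α ^ i - α ^ j‖ ≤ 1 / (‖α‖ ^ i * (‖α‖ - 1) / ‖α‖) := one_div_le_one_div_of_le h6 h4
    _ = ‖α‖ / (‖α‖ - 1) * (1 / ‖α‖) ^ i := by
      rw [one_div_pow]; field_simp

/-- the constant -/
noncomputable def CC (α w : ℂ) (R : ℝ) : ℝ :=
  (2 * R) * (2 * R) + 4 * R / ‖w‖ * (‖α‖ / (‖α‖ - 1)) * (‖α‖ / (‖α‖ - 1))

theorem geo (ρ : ℝ) (hρ : 1 < ρ) (N : ℕ) : ∑ i ∈ range N, (1 / ρ) ^ i ≤ ρ / (ρ - 1) := by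
  have h0 : (0 : ℝ) ≤ 1 / ρ := by positivity
  have h1 : 1 / ρ < 1 := by rw [div_lt_one (by linarith)]; exact hρ
  have h2 := (summable_geometric_of_lt_one h0 h1).sum_le_tsum (range N)
    (fun i _ => by positivity)
  rw [tsum_geometric_of_lt_one h0 h1] at h2
  refine h2.trans (le_of_eq ?_)
  have : ρ ≠ 0 := by linarith
  have : ρ - 1 ≠ 0 := by linarith
  field_simp

theorem second_moment (α w : ℂ) (hα : 1 < ‖α‖) (hw : w ≠ 0) (R : ℝ) (hR : 0 ≤ R) (N : ℕ) :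
    ∫ x in Bx R, ‖SS α w N x‖ ^ 2 ≤ CC α w R * N := by
  have h0 : (0 : ℝ) < ‖α‖ - 1 := by linarith
  have hw0 : 0 < ‖w‖ := norm_pos_iff.2 hw
  have e1 : ((∫ x in Bx R, ‖SS α w N x‖ ^ 2 : ℝ) : ℂ) =
      ∑ i ∈ range N, ∑ j ∈ range N, II R (w * (α ^ i - α ^ j)) := by
    rw [← integral_complex_ofReal]
    have : ∀ x : ℂ, ((‖SS α w N x‖ ^ 2 : ℝ) : ℂ) =
        ∑ i ∈ range N, ∑ j ∈ range N, e ((w * (α ^ i - α ^ j) * x).re) := SS_sq α w N
    simp_rw [this]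
    rw [integral_finset_sum]
    · refine sum_congr rfl fun i _ => ?_
      rw [integral_finset_sum]
      · rfl
      · intro j _; exact int_e R _
    · intro i _
      exact integrable_finset_sum _ fun j _ => int_e R _
  have e2 : ∫ x in Bx R, ‖SS α w N x‖ ^ 2 ≤
      ‖((∫ x in Bx R, ‖SS α w N x‖ ^ 2 : ℝ) : ℂ)‖ := by
    rw [Complex.norm_real]; exact le_abs_self _
  refine e2.trans ?_
  rw [e1]
  have e3 : ∀ i ∈ range N, ∀ j ∈ range N, ‖II R (w * (α ^ i - α ^ j))‖ ≤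
      (if i = j then (2 * R) * (2 * R) else 0) +
        4 * R / ‖w‖ * (‖α‖ / (‖α‖ - 1)) * (1 / ‖α‖) ^ i := by
    intro i _ j _
    have hpos : 0 ≤ 4 * R / ‖w‖ * (‖α‖ / (‖α‖ - 1)) * (1 / ‖α‖) ^ i := by positivity
    split_ifs with h
    · have := II_le' R hR (w * (α ^ i - α ^ j))
      linarith
    · rw [zero_add]
      have hk := key_sum α hα i j h
      have hne : α ^ i - α ^ j ≠ 0 := by
        intro hz
        have h5 : ‖α‖ ^ i = ‖α‖ ^ j := by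
          rw [← norm_pow, ← norm_pow, sub_eq_zero.1 hz]
        exact h (pow_right_injective₀ (by linarith) hα.ne' h5)
      refine (II_le R hR _ (mul_ne_zero hw hne)).trans ?_
      rw [norm_mul]
      calc 4 * R / (‖w‖ * ‖α ^ i - α ^ j‖) = 4 * R / ‖w‖ * (1 / ‖α ^ i - α ^ j‖) := by
            rw [mul_one_div, div_div]
        _ ≤ 4 * R / ‖w‖ * (‖α‖ / (‖α‖ - 1) * (1 / ‖α‖) ^ i) := by gcongr
        _ = _ := by ring
  calc ‖∑ i ∈ range N, ∑ j ∈ range N, II R (w * (α ^ i - α ^ j))‖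
      ≤ ∑ i ∈ range N, ∑ j ∈ range N, ((if i = j then (2 * R) * (2 * R) else 0) +
        4 * R / ‖w‖ * (‖α‖ / (‖α‖ - 1)) * (1 / ‖α‖) ^ i) := by
        refine (norm_sum_le _ _).trans (sum_le_sum fun i hi => ?_)
        exact (norm_sum_le _ _).trans (sum_le_sum fun j hj => e3 i hi j hj)
    _ = ∑ i ∈ range N, ((2 * R) * (2 * R) +
        N * (4 * R / ‖w‖ * (‖α‖ / (‖α‖ - 1)) * (1 / ‖α‖) ^ i)) := by
        refine sum_congr rfl fun i hi => ?_
        rw [sum_add_distrib, sum_ite_eq, if_pos hi, sum_const, card_range, nsmul_eq_mul]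
    _ = N * ((2 * R) * (2 * R)) +
        N * (4 * R / ‖w‖ * (‖α‖ / (‖α‖ - 1))) * ∑ i ∈ range N, (1 / ‖α‖) ^ i := by
        rw [sum_add_distrib, sum_const, card_range, nsmul_eq_mul, mul_sum]
        congr 1
        refine sum_congr rfl fun i _ => by ring
    _ ≤ N * ((2 * R) * (2 * R)) +
        N * (4 * R / ‖w‖ * (‖α‖ / (‖α‖ - 1))) * (‖α‖ / (‖α‖ - 1)) := by
        gcongr
        exact geo ‖α‖ hα N
    _ = CC α w R * N := by unfold CC; ring

theorem lint (α w : ℂ) (hα : 1 < ‖α‖) (hw : w ≠ 0) (R : ℝ) (hR : 0 ≤ R) (k : ℕ) :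
    ∫⁻ x in Bx R, ENNReal.ofReal (‖SS α w ((k + 1) ^ 2) x‖ ^ 2 / ((k + 1 : ℝ) ^ 2) ^ 2) ≤
      ENNReal.ofReal (CC α w R / (k + 1 : ℝ) ^ 2) := by
  have hint : IntegrableOn (fun x => ‖SS α w ((k + 1) ^ 2) x‖ ^ 2 / ((k + 1 : ℝ) ^ 2) ^ 2)
      (Bx R) := by
    refine Measure.integrableOn_of_bounded (M := (((k + 1) ^ 2 : ℕ) : ℝ) ^ 2 / ((k + 1 : ℝ) ^ 2) ^ 2)
      (vol_ne_top R) ?_ ?_
    · exact (((SS_cont α w _).norm.pow 2).div_const _).aestronglyMeasurable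
    · refine Eventually.of_forall fun x => ?_
      rw [Real.norm_of_nonneg (by positivity)]
      gcongr
      exact SS_norm_le α w _ x
  rw [← ofReal_integral_eq_lintegral_ofReal hint (Eventually.of_forall fun x => by positivity),
    integral_div]
  apply ENNReal.ofReal_le_ofReal
  have h := second_moment α w hα hw R hR ((k + 1) ^ 2)
  rw [div_le_div_iff₀ (by positivity) (by positivity)]
  push_cast at h
  have hk : (0 : ℝ) < (k + 1 : ℝ) ^ 2 := by positivity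
  nlinarith

theorem ae_sq (α w : ℂ) (hα : 1 < ‖α‖) (hw : w ≠ 0) (R : ℝ) (hR : 0 ≤ R) :
    ∀ᵐ x ∂(volume.restrict (Bx R)),
      Tendsto (fun k : ℕ => ‖SS α w ((k + 1) ^ 2) x‖ / (k + 1 : ℝ) ^ 2) atTop (𝓝 0) := by
  have h1 : ∫⁻ x in Bx R, ∑' k : ℕ,
      ENNReal.ofReal (‖SS α w ((k + 1) ^ 2) x‖ ^ 2 / ((k + 1 : ℝ) ^ 2) ^ 2) ≠ ⊤ := by
    rw [lintegral_tsum]
    · refine ne_top_of_le_ne_top ?_ (ENNReal.tsum_le_tsum fun k => lint α w hα hw R hR k)
      have hs : Summable fun k : ℕ => CC α w R / (k + 1 : ℝ) ^ 2 := by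
        have h2 : Summable fun k : ℕ => 1 / (k : ℝ) ^ 2 :=
          Real.summable_one_div_nat_pow.2 (by norm_num)
        have h3 := ((summable_nat_add_iff 1).2 h2).mul_left (CC α w R)
        refine h3.congr fun k => ?_
        push_cast; ring
      rw [← ENNReal.ofReal_tsum_of_nonneg _ hs]
      · exact ENNReal.ofReal_ne_top
      · intro k
        have h0 : (0 : ℝ) < ‖α‖ - 1 := by linarith
        unfold CC
        positivity
    · intro k
      refine (ENNReal.measurable_ofReal.comp_aemeasurable ?_)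
      exact (((SS_cont α w _).norm.pow 2).div_const _).aemeasurable
  have hm : AEMeasurable (fun x => ∑' k : ℕ,
      ENNReal.ofReal (‖SS α w ((k + 1) ^ 2) x‖ ^ 2 / ((k + 1 : ℝ) ^ 2) ^ 2))
      (volume.restrict (Bx R)) := by
    refine AEMeasurable.tsum fun k => ?_
    refine (ENNReal.measurable_ofReal.comp_aemeasurable ?_)
    exact (((SS_cont α w _).norm.pow 2).div_const _).aemeasurable
  filter_upwards [ae_lt_top' hm h1] with x hx
  have h4 := ENNReal.tendsto_atTop_zero_of_tsum_ne_top hx.ne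
  have h5 : Tendsto (fun k : ℕ => ‖SS α w ((k + 1) ^ 2) x‖ ^ 2 / ((k + 1 : ℝ) ^ 2) ^ 2)
      atTop (𝓝 0) := by
    have h6 := (ENNReal.tendsto_toReal ENNReal.zero_ne_top).comp h4
    rw [ENNReal.toReal_zero] at h6
    refine h6.congr fun k => ?_
    exact ENNReal.toReal_ofReal (by positivity)
  have h7 := h5.sqrt
  rw [Real.sqrt_zero] at h7
  refine h7.congr fun k => ?_
  rw [← div_pow, Real.sqrt_sq (by positivity)]

theorem interp (α w : ℂ) (x : ℂ)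
    (h : Tendsto (fun k : ℕ => ‖SS α w ((k + 1) ^ 2) x‖ / (k + 1 : ℝ) ^ 2) atTop (𝓝 0)) :
    Tendsto (fun N : ℕ => SS α w N x / N) atTop (𝓝 0) := by
  rw [tendsto_zero_iff_norm_tendsto_zero]
  -- `k N = sqrt N - 1`, `(k + 1)^2 ≤ N < (k + 2)^2`
  have hk : Tendsto (fun N : ℕ => Nat.sqrt N - 1) atTop atTop := by
    refine tendsto_atTop.2 fun b => ?_
    filter_upwards [eventually_ge_atTop ((b + 1) * (b + 1))] with N hN
    have : b + 1 ≤ Nat.sqrt N := Nat.le_sqrt.2 hN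
    omega
  have h1 := h.comp hk
  have h2 : Tendsto (fun N : ℕ => 2 * (1 / (((Nat.sqrt N - 1 : ℕ) : ℝ) + 1))) atTop (𝓝 (2 * 0)) :=
    (tendsto_one_div_add_atTop_nhds_zero_nat.comp hk).const_mul 2
  have h3 := h1.add h2
  rw [mul_zero, add_zero] at h3
  refine squeeze_zero' (Eventually.of_forall fun _ => norm_nonneg _) ?_ h3
  filter_upwards [eventually_ge_atTop 1] with N hN
  have hs : 1 ≤ Nat.sqrt N := Nat.le_sqrt.2 (by omega)
  obtain ⟨r, hr⟩ : ∃ r, Nat.sqrt N = r + 1 := ⟨Nat.sqrt N - 1, by omega⟩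
  have hle : (r + 1) ^ 2 ≤ N := by
    have := Nat.sqrt_le' N; rwa [hr] at this
  have hlt : N < (r + 2) ^ 2 := by
    have := Nat.lt_succ_sqrt' N
    rw [hr] at this; exact this
  have hr1 : Nat.sqrt N - 1 = r := by omega
  have hN0 : (0 : ℝ) < N := by exact_mod_cast hN
  have hsub : ‖SS α w N x‖ ≤ ‖SS α w ((r + 1) ^ 2) x‖ + ((N : ℝ) - ((r + 1 : ℕ) : ℝ) ^ 2) := by
    have e1 : SS α w N x = SS α w ((r + 1) ^ 2) x +
        ∑ i ∈ Ico ((r + 1) ^ 2) N, e ((w * α ^ i * x).re) := by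
      unfold SS
      rw [range_eq_Ico, range_eq_Ico, sum_Ico_consecutive _ (Nat.zero_le _) hle]
    rw [e1]
    refine (norm_add_le _ _).trans (add_le_add le_rfl ?_)
    refine (norm_sum_le _ _).trans ?_
    simp only [e_norm, sum_const, Nat.card_Ico, nsmul_eq_mul, mul_one]
    rw [Nat.cast_sub hle]
    push_cast; linarith
  have hle' : ((r : ℝ) + 1) ^ 2 ≤ N := by exact_mod_cast hle
  have hlt' : (N : ℝ) < ((r : ℝ) + 2) ^ 2 := by exact_mod_cast hlt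
  rw [norm_div, Complex.norm_natCast]
  simp only [Function.comp_apply, hr1]
  have hr0 : (0 : ℝ) < (r : ℝ) + 1 := by positivity
  have a1 : ‖SS α w ((r + 1) ^ 2) x‖ / N ≤ ‖SS α w ((r + 1) ^ 2) x‖ / ((r : ℝ) + 1) ^ 2 :=
    div_le_div_of_nonneg_left (norm_nonneg _) (by positivity) hle'
  have a2 : ((N : ℝ) - ((r : ℝ) + 1) ^ 2) / N ≤ 2 * (1 / ((r : ℝ) + 1)) := by
    rw [mul_one_div, div_le_div_iff₀ hN0 hr0]
    -- N - (r+1)^2 ≤ 2 (r + 1) as N ≤ (r+2)^2 - 1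
    have hlt2 : (N : ℝ) ≤ ((r : ℝ) + 2) ^ 2 - 1 := by
      have : N + 1 ≤ (r + 2) ^ 2 := hlt
      have h' : ((N + 1 : ℕ) : ℝ) ≤ (((r + 2) ^ 2 : ℕ) : ℝ) := by exact_mod_cast this
      push_cast at h'; linarith
    have hb : (N : ℝ) - ((r : ℝ) + 1) ^ 2 ≤ 2 * ((r : ℝ) + 1) := by nlinarith
    nlinarith
  calc ‖SS α w N x‖ / N ≤ (‖SS α w ((r + 1) ^ 2) x‖ + ((N : ℝ) - ((r + 1 : ℕ) : ℝ) ^ 2)) / N := by
        gcongr
    _ = ‖SS α w ((r + 1) ^ 2) x‖ / N + ((N : ℝ) - ((r : ℝ) + 1) ^ 2) / N := by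
        rw [add_div]; push_cast; ring
    _ ≤ _ := add_le_add a1 a2

theorem weyl : S_WEYL := by
  intro α hα w hw
  have h1 : ∀ n : ℕ, ∀ᵐ x ∂(volume : Measure ℂ), x ∈ Bx n →
      Tendsto (fun k : ℕ => ‖SS α w ((k + 1) ^ 2) x‖ / (k + 1 : ℝ) ^ 2) atTop (𝓝 0) := fun n =>
    (ae_restrict_iff' (meas_Bx n)).1 (ae_sq α w hα hw n (Nat.cast_nonneg n))
  filter_upwards [ae_all_iff.2 h1] with x hx
  obtain ⟨n, hn⟩ := exists_nat_ge ‖x‖
  exact interp α w x (hx n (mem_Bx hn))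

end Pool.Agent.Q58.GQ
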